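import Mathlib

set_option autoImplicit false

namespace Pool.Agent.H464R2

open MvPolynomial

/-- restriction of a polynomial in two variables to a set of points -/
noncomputable def evS (S : Set (Fin 2 → ℂ)) : MvPolynomial (Fin 2) ℂ →ₗ[ℂ] (S → ℂ) where
  toFun p := fun z => eval (z : Fin 2 → ℂ) p
  map_add' p q := by ext z; simp
  map_smul' c p := by ext z; simp [smul_eval]

lemma evS_apply (S : Set (Fin 2 → ℂ)) (p : MvPolynomial (Fin 2) ℂ) (z : S) :
    evS S p z = eval (z : Fin 2 → ℂ) p := rfl

noncomputable def Msub (S : Set (Fin 2 → ℂ)) (D : ℕ) : Submodule ℂ (S → ℂ) :=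
  Submodule.span ℂ (Set.range (fun ab : Fin D × Fin D =>
    evS S (X 0 ^ (ab.1 : ℕ) * X 1 ^ (ab.2 : ℕ))))

lemma mem_Msub (S : Set (Fin 2 → ℂ)) (D : ℕ) (hD : 0 < D) (r : Fin 2 → MvPolynomial (Fin 2) ℂ)
    (hr : ∀ i, (r i).totalDegree < D)
    (hS : ∀ z ∈ S, ∀ i, z i ^ D + eval z (r i) = 0) :
    ∀ n : ℕ, ∀ p : MvPolynomial (Fin 2) ℂ, p.totalDegree ≤ n → evS S p ∈ Msub S D := by
  intro n
  induction n using Nat.strong_induction_on with
  | _ n ih =>
    intro p hp
    rw [← support_sum_monomial_coeff p, map_sum]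
    refine Submodule.sum_mem _ ?_
    intro s hs
    have hdeg : s.sum (fun _ e => e) ≤ n := (le_totalDegree hs).trans hp
    have hdeg' : s 0 + s 1 ≤ n := by
      have : s.sum (fun _ e => e) = s 0 + s 1 := by
        rw [Finsupp.sum_fintype _ _ (by simp), Fin.sum_univ_two]
      omega
    by_cases h0 : ∀ i, s i < D
    · -- small exponents
      have hm : (monomial s (coeff s p) : MvPolynomial (Fin 2) ℂ) =
          (coeff s p) • (X 0 ^ (s 0) * X 1 ^ (s 1)) := by
        rw [monomial_eq, smul_eq_C_mul]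
        congr 1
        rw [Finsupp.prod_fintype _ _ (by simp), Fin.prod_univ_two]
      rw [hm, map_smul]
      refine Submodule.smul_mem _ _ ?_
      exact Submodule.subset_span ⟨(⟨s 0, h0 0⟩, ⟨s 1, h0 1⟩), rfl⟩
    · push Not at h0
      obtain ⟨i, hi⟩ := h0
      -- reduce
      have key : evS S (monomial s (coeff s p)) =
          evS S (monomial (s - Finsupp.single i D) (coeff s p) * (- r i)) := by
        ext z
        rw [evS_apply, evS_apply]
        have h1 : (monomial s (coeff s p) : MvPolynomial (Fin 2) ℂ) =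
            monomial (s - Finsupp.single i D) (coeff s p) * X i ^ D := by
          rw [X_pow_eq_monomial, monomial_mul, mul_one]
          congr 1
          rw [tsub_add_cancel_of_le]
          rw [Finsupp.single_le_iff]
          exact hi
        rw [h1, map_mul, map_mul, map_pow, eval_X, map_neg]
        have h2 := hS z z.2 i
        have h3 : (z : Fin 2 → ℂ) i ^ D = - eval (z : Fin 2 → ℂ) (r i) := by linear_combination h2
        rw [h3]
      rw [key]
      have hsum : (s - Finsupp.single i D) 0 + (s - Finsupp.single i D) 1 + D = s 0 + s 1 := by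
        fin_cases i
        · simp at hi ⊢
          omega
        · simp at hi ⊢
          omega
      have htd : (monomial (s - Finsupp.single i D) (coeff s p) * (- r i)).totalDegree < n := by
        refine lt_of_le_of_lt (totalDegree_mul _ _) ?_
        rw [totalDegree_neg]
        have h1 : (monomial (s - Finsupp.single i D) (coeff s p) : MvPolynomial (Fin 2) ℂ).totalDegree
            ≤ (s - Finsupp.single i D) 0 + (s - Finsupp.single i D) 1 := by
          refine (totalDegree_monomial_le _ _).trans ?_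
          rw [Finsupp.sum_fintype _ _ (by simp), Fin.sum_univ_two]
          exact le_rfl
        have h2 := hr i
        omega
      exact ih (n - 1) (by omega) _ (by omega)

lemma finite_zeros (S : Set (Fin 2 → ℂ)) (D : ℕ) (hD : 0 < D) (r : Fin 2 → MvPolynomial (Fin 2) ℂ)
    (hr : ∀ i, (r i).totalDegree < D)
    (hS : ∀ z ∈ S, ∀ i, z i ^ D + eval z (r i) = 0) : S.Finite := by
  have hfd : FiniteDimensional ℂ (Msub S D) := by
    unfold Msub
    exact FiniteDimensional.span_of_finite ℂ (Set.finite_range _)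
  have hcoord : ∀ i : Fin 2, ((fun z : Fin 2 → ℂ => z i) '' S).Finite := by
    intro i
    let L : Polynomial ℂ →ₗ[ℂ] (S → ℂ) := (evS S).comp (Polynomial.aeval (X i : MvPolynomial (Fin 2) ℂ)).toLinearMap
    have hL : ∀ q, L q ∈ Msub S D := by
      intro q
      exact mem_Msub S D hD r hr hS _ _ le_rfl
    have hLapp : ∀ q (z : S), L q z = q.eval ((z : Fin 2 → ℂ) i) := by
      intro q z
      show eval (z : Fin 2 → ℂ) (Polynomial.aeval (X i : MvPolynomial (Fin 2) ℂ) q) = _
      induction q using Polynomial.induction_on' with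
      | add p q hp hq => simp [hp, hq]
      | monomial n a => simp [Polynomial.aeval_monomial]
    let L' : Polynomial ℂ →ₗ[ℂ] Msub S D := L.codRestrict _ hL
    have hninj : ¬ Function.Injective L' := by
      intro hinj
      have := hfd
      have : Module.Finite ℂ (Polynomial ℂ) := Module.Finite.of_injective L' hinj
      exact Polynomial.not_finite this
    have : ∃ q : Polynomial ℂ, q ≠ 0 ∧ L' q = 0 := by
      by_contra hcon
      push Not at hcon
      apply hninj
      rw [injective_iff_map_eq_zero]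
      intro q hq
      by_contra hq0
      exact hcon q hq0 hq
    obtain ⟨q, hq0, hq⟩ := this
    have hz : ∀ z ∈ S, q.eval (z i) = 0 := by
      intro z hz
      have h1 : L q = 0 := congrArg Subtype.val hq
      have h2 := hLapp q ⟨z, hz⟩
      rw [h1] at h2
      simpa using h2.symm
    refine (q.roots.toFinset.finite_toSet).subset ?_
    rintro _ ⟨z, hzS, rfl⟩
    simp only [Finset.mem_coe, Multiset.mem_toFinset, Polynomial.mem_roots hq0]
    exact hz z hzS
  refine (Set.Finite.pi (t := fun i : Fin 2 => (fun z : Fin 2 → ℂ => z i) '' S) hcoord).subset ?_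
  intro z hz i _
  exact ⟨z, hz, rfl⟩

/-- the map `F (x,y) = (x - y^3 + x^4, y + x^3 + y^4)` -/
noncomputable def F (z : Fin 2 → ℂ) : Fin 2 → ℂ :=
  ![z 0 - z 1 ^ 3 + z 0 ^ 4, z 1 + z 0 ^ 3 + z 1 ^ 4]

/-- polynomials representing the iterates -/
noncomputable def A : ℕ → Fin 2 → MvPolynomial (Fin 2) ℂ
  | 0 => ![X 0, X 1]
  | (m+1) => ![A m 0 - A m 1 ^ 3 + A m 0 ^ 4, A m 1 + A m 0 ^ 3 + A m 1 ^ 4]

lemma eval_A (z : Fin 2 → ℂ) (m : ℕ) : (fun i => eval z (A m i)) = F^[m] z := by
  induction m with
  | zero => ext i; fin_cases i <;> simp [A]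
  | succ m ih =>
    rw [Function.iterate_succ_apply', ← ih]
    ext i
    fin_cases i <;> simp [A, F]

lemma totalDegree_pow_le' (p : MvPolynomial (Fin 2) ℂ) (k n : ℕ) (h : p.totalDegree ≤ n) :
    (p ^ k).totalDegree ≤ k * n :=
  (totalDegree_pow p k).trans (Nat.mul_le_mul_left k h)

lemma A_top (m : ℕ) : ∀ i : Fin 2, (A m i - X i ^ (4 ^ m)).totalDegree < 4 ^ m := by
  induction m with
  | zero =>
    intro i
    fin_cases i <;> simp [A]
  | succ m ih =>
    have hD : 1 ≤ 4 ^ m := Nat.one_le_pow _ _ (by norm_num)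
    -- write A m i = X i ^ D + R i
    have hA : ∀ i, (A m i).totalDegree ≤ 4 ^ m := by
      intro i
      have h1 : A m i = (A m i - X i ^ (4 ^ m)) + X i ^ (4 ^ m) := by ring
      rw [h1]
      refine (totalDegree_add _ _).trans (max_le (ih i).le ?_)
      rw [totalDegree_X_pow]
    have h4 : ∀ i, (A m i ^ 4 - X i ^ (4 ^ (m + 1))).totalDegree < 4 ^ (m + 1) := by
      intro i
      set R := A m i - X i ^ (4 ^ m) with hR
      have hAi : A m i = X i ^ (4 ^ m) + R := by rw [hR]; ring
      have hx : (X i : MvPolynomial (Fin 2) ℂ) ^ (4 ^ (m + 1)) = (X i ^ (4 ^ m)) ^ 4 := by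
        rw [← pow_mul]; rfl
      have hfac : A m i ^ 4 - X i ^ (4 ^ (m + 1)) =
          R * (A m i ^ 3 + A m i ^ 2 * X i ^ (4 ^ m) + A m i * (X i ^ (4 ^ m)) ^ 2 +
            (X i ^ (4 ^ m)) ^ 3) := by
        rw [hx, hAi]; ring
      rw [hfac]
      refine lt_of_le_of_lt (totalDegree_mul _ _) ?_
      have hXd : (X i ^ (4 ^ m) : MvPolynomial (Fin 2) ℂ).totalDegree ≤ 4 ^ m := by
        rw [totalDegree_X_pow]
      have hbig : (A m i ^ 3 + A m i ^ 2 * X i ^ (4 ^ m) + A m i * (X i ^ (4 ^ m)) ^ 2 +
            (X i ^ (4 ^ m)) ^ 3).totalDegree ≤ 3 * 4 ^ m := by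
        refine (totalDegree_add _ _).trans (max_le ((totalDegree_add _ _).trans (max_le
          ((totalDegree_add _ _).trans (max_le ?_ ?_)) ?_)) ?_)
        · exact totalDegree_pow_le' _ _ _ (hA i)
        · refine (totalDegree_mul _ _).trans ?_
          have := totalDegree_pow_le' _ 2 _ (hA i)
          omega
        · refine (totalDegree_mul _ _).trans ?_
          have := totalDegree_pow_le' _ 2 _ hXd
          have := hA i
          omega
        · exact totalDegree_pow_le' _ _ _ hXd
      have h3 := ih i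
      rw [← hR] at h3
      have : 4 ^ (m + 1) = 4 * 4 ^ m := by ring
      omega
    have h3 : ∀ i, (A m i ^ 3).totalDegree ≤ 3 * 4 ^ m := fun i => totalDegree_pow_le' _ _ _ (hA i)
    have hpow : 4 ^ (m + 1) = 4 * 4 ^ m := by ring
    intro i
    fin_cases i
    · have : A (m + 1) 0 - X 0 ^ (4 ^ (m + 1)) =
          (A m 0 - A m 1 ^ 3) + (A m 0 ^ 4 - X 0 ^ (4 ^ (m + 1))) := by
        simp only [A, Matrix.cons_val_zero]; ring
      show (A (m + 1) 0 - X 0 ^ (4 ^ (m + 1))).totalDegree < _
      rw [this]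
      refine lt_of_le_of_lt (totalDegree_add _ _) (max_lt ?_ (h4 0))
      refine lt_of_le_of_lt (totalDegree_sub _ _) (max_lt ?_ ?_)
      · have := hA 0
        omega
      · have := h3 1
        omega
    · have : A (m + 1) 1 - X 1 ^ (4 ^ (m + 1)) =
          (A m 1 + A m 0 ^ 3) + (A m 1 ^ 4 - X 1 ^ (4 ^ (m + 1))) := by
        simp only [A, Matrix.cons_val_one, Matrix.cons_val_fin_one]; ring
      show (A (m + 1) 1 - X 1 ^ (4 ^ (m + 1))).totalDegree < _
      rw [this]
      refine lt_of_le_of_lt (totalDegree_add _ _) (max_lt ?_ (h4 1))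
      refine lt_of_le_of_lt (totalDegree_add _ _) (max_lt ?_ ?_)
      · have := hA 1
        omega
      · have := h3 0
        omega

/-- `F^m` has finitely many fixed points for `m ≥ 1`. -/
theorem finite_periodic (m : ℕ) (hm : 0 < m) : {z : Fin 2 → ℂ | F^[m] z = z}.Finite := by
  have h4 : 4 ≤ 4 ^ m := by
    calc 4 = 4 ^ 1 := by norm_num
      _ ≤ 4 ^ m := Nat.pow_le_pow_right (by norm_num) hm
  refine finite_zeros _ (4 ^ m) (by positivity) (fun i => (A m i - X i ^ (4 ^ m)) - X i) ?_ ?_
  · intro i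
    refine lt_of_le_of_lt (totalDegree_sub _ _) (max_lt (A_top m i) ?_)
    rw [totalDegree_X]
    omega
  · intro z hz i
    have h1 : (fun i => eval z (A m i)) = z := by
      rw [eval_A]; exact hz
    have h2 : eval z (A m i) = z i := congrFun h1 i
    simp only [map_sub, map_pow, eval_X, h2]
    ring

end Pool.Agent.H464R2
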