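import Mathlib

set_option autoImplicit false

namespace Pool.Agent.H464R2

open Real Set Filter Topology

/-- `w θ = cos^4 θ + sin^4 θ` -/
noncomputable def w (θ : ℝ) : ℝ := cos θ ^ 4 + sin θ ^ 4

lemma w_lower (θ : ℝ) : 1 / 2 ≤ w θ := by
  unfold w
  have h := sin_sq_add_cos_sq θ
  nlinarith [sq_nonneg (cos θ ^ 2 - sin θ ^ 2)]

lemma w_upper (θ : ℝ) : w θ ≤ 1 := by
  unfold w
  have h := sin_sq_add_cos_sq θ
  have h1 : (sin θ ^ 2 + cos θ ^ 2) ^ 2 = 1 := by rw [h]; norm_num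
  nlinarith [mul_nonneg (sq_nonneg (cos θ)) (sq_nonneg (sin θ))]

lemma w_pos (θ : ℝ) : 0 < w θ := lt_of_lt_of_le (by norm_num) (w_lower θ)

lemma w_hasDeriv (θ : ℝ) : HasDerivAt w (4 * (sin θ ^ 3 * cos θ - cos θ ^ 3 * sin θ)) θ := by
  unfold w
  have h1 := (hasDerivAt_cos θ).pow 4
  have h2 := (hasDerivAt_sin θ).pow 4
  have h := h1.add h2
  refine h.congr_deriv ?_
  push_cast
  ring

lemma w_continuous : Continuous w := by unfold w; fun_prop

/-- `g = sqrt w` -/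
noncomputable def g (θ : ℝ) : ℝ := √(w θ)

lemma g_pos (θ : ℝ) : 0 < g θ := Real.sqrt_pos.2 (w_pos θ)
lemma g_sq (θ : ℝ) : g θ ^ 2 = w θ := Real.sq_sqrt (w_pos θ).le
lemma g_continuous : Continuous g := by unfold g; exact w_continuous.sqrt
lemma g_le_one (θ : ℝ) : g θ ≤ 1 := by
  calc g θ ≤ √1 := Real.sqrt_le_sqrt (w_upper θ)
    _ = 1 := Real.sqrt_one
lemma g_ge (θ : ℝ) : 1 / 2 ≤ g θ := by
  have h := g_sq θ
  have h1 := w_lower θ
  have h2 := g_pos θ
  nlinarith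

noncomputable def q (θ : ℝ) : ℝ := √(g θ)
lemma q_pos (θ : ℝ) : 0 < q θ := Real.sqrt_pos.2 (g_pos θ)
lemma q_sq (θ : ℝ) : q θ ^ 2 = g θ := Real.sq_sqrt (g_pos θ).le
lemma q_four (θ : ℝ) : q θ ^ 4 = w θ := by
  have : q θ ^ 4 = (q θ ^ 2) ^ 2 := by ring
  rw [this, q_sq, g_sq]
lemma q_ge (θ : ℝ) : 1 / 2 ≤ q θ := by
  have h := q_sq θ
  have h1 := g_ge θ
  have h2 := q_pos θ
  nlinarith

lemma q_hasDeriv (θ : ℝ) :
    HasDerivAt q ((sin θ ^ 3 * cos θ - cos θ ^ 3 * sin θ) / q θ ^ 3) θ := by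
  have h1 : HasDerivAt g ((4 * (sin θ ^ 3 * cos θ - cos θ ^ 3 * sin θ)) / (2 * √(w θ))) θ :=
    (w_hasDeriv θ).sqrt (w_pos θ).ne'
  have h2 := h1.sqrt (g_pos θ).ne'
  refine h2.congr_deriv ?_
  change _ / (2 * g θ) / (2 * q θ) = _
  rw [← q_sq]
  have := (q_pos θ).ne'
  field_simp
  ring

/-- time function -/
noncomputable def Tf (θ : ℝ) : ℝ := ∫ φ in (0:ℝ)..θ, (g φ)⁻¹

lemma ginv_continuous : Continuous (fun φ => (g φ)⁻¹) :=
  g_continuous.inv₀ (fun φ => (g_pos φ).ne')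

lemma Tf_hasDeriv (θ : ℝ) : HasDerivAt Tf (g θ)⁻¹ θ :=
  (ginv_continuous.integral_hasStrictDerivAt 0 θ).hasDerivAt

lemma Tf_zero : Tf 0 = 0 := by simp [Tf]

lemma Tf_continuous : Continuous Tf :=
  continuous_iff_continuousAt.2 fun θ => (Tf_hasDeriv θ).continuousAt

lemma Tf_strictMono : StrictMono Tf := by
  apply strictMono_of_deriv_pos
  intro θ
  rw [(Tf_hasDeriv θ).deriv]
  exact inv_pos.2 (g_pos θ)

lemma Tf_sub_mono : Monotone (fun θ => Tf θ - θ) := by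
  apply monotone_of_deriv_nonneg
  · intro θ
    exact ((Tf_hasDeriv θ).sub (hasDerivAt_id θ)).differentiableAt
  · intro θ
    have h : HasDerivAt (fun θ => Tf θ - θ) ((g θ)⁻¹ - 1) θ := (Tf_hasDeriv θ).sub (hasDerivAt_id θ)
    rw [h.deriv]
    have h1 := g_pos θ
    have h2 := g_le_one θ
    have : 1 ≤ (g θ)⁻¹ := (one_le_inv₀ h1).2 h2
    linarith

lemma Tf_surj : Function.Surjective Tf := by
  apply Tf_continuous.surjective
  · refine tendsto_atTop_mono' _ ?_ tendsto_id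
    filter_upwards [eventually_ge_atTop (0:ℝ)] with θ hθ
    have h := Tf_sub_mono hθ
    simp only [Tf_zero, sub_zero] at h
    simp only [id]
    linarith
  · refine tendsto_atBot_mono' _ ?_ tendsto_id
    filter_upwards [eventually_le_atBot (0:ℝ)] with θ hθ
    have h := Tf_sub_mono hθ
    simp only [Tf_zero, sub_zero] at h
    simp only [id]
    linarith

noncomputable def Tiso : ℝ ≃o ℝ := StrictMono.orderIsoOfSurjective Tf Tf_strictMono Tf_surj

noncomputable def Th (t : ℝ) : ℝ := Tiso.symm t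

lemma Tf_Th (t : ℝ) : Tf (Th t) = t := Tiso.apply_symm_apply t
lemma Th_Tf (θ : ℝ) : Th (Tf θ) = θ := Tiso.symm_apply_apply θ

lemma Th_continuous : Continuous Th := Tiso.symm.continuous

lemma Th_hasDeriv (t : ℝ) : HasDerivAt Th (g (Th t)) t := by
  have h := HasDerivAt.of_local_left_inverse (Th_continuous.continuousAt (x := t))
    (Tf_hasDeriv (Th t)) (inv_pos.2 (g_pos _)).ne' (Eventually.of_forall Tf_Th)
  rwa [inv_inv] at h

noncomputable def Tper : ℝ := Tf (2 * π)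

lemma Tper_pos : 0 < Tper := by
  have := Tf_strictMono (show (0:ℝ) < 2 * π by positivity)
  rwa [Tf_zero] at this

lemma g_per (θ : ℝ) : g (θ + 2 * π) = g θ := by
  simp [g, w]

lemma q_per (θ : ℝ) : q (θ + 2 * π) = q θ := by
  simp [q, g_per]

lemma Tf_add (θ : ℝ) : Tf (θ + 2 * π) = Tf θ + Tper := by
  have h : ∀ x, HasDerivAt (fun θ => Tf (θ + 2 * π) - Tf θ) 0 x := by
    intro x
    have h1 : HasDerivAt (fun θ => Tf (θ + 2 * π)) ((g (x + 2 * π))⁻¹) x := by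
      simpa using (Tf_hasDeriv (x + 2 * π)).comp_add_const x (2 * π)
    have h2 := h1.sub (Tf_hasDeriv x)
    rw [g_per, sub_self] at h2
    exact h2
  have hc := is_const_of_deriv_eq_zero (f := fun θ => Tf (θ + 2 * π) - Tf θ)
    (fun x => (h x).differentiableAt) (fun x => (h x).deriv) θ 0
  simp only [zero_add, Tf_zero, sub_zero] at hc
  unfold Tper
  linarith

lemma Th_add (t : ℝ) : Th (t + Tper) = Th t + 2 * π := by
  have h := Tf_add (Th t)
  rw [Tf_Th] at h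
  rw [← h, Th_Tf]

noncomputable def xx (t : ℝ) : ℝ := cos (Th t) / q (Th t)
noncomputable def yy (t : ℝ) : ℝ := sin (Th t) / q (Th t)

lemma xx_per (t : ℝ) : xx (t + Tper) = xx t := by
  simp [xx, Th_add, q_per]

lemma yy_per (t : ℝ) : yy (t + Tper) = yy t := by
  simp [yy, Th_add, q_per]

lemma xx_hasDeriv (t : ℝ) : HasDerivAt xx (-(yy t) ^ 3) t := by
  have hq := (q_pos (Th t)).ne'
  have h1 : HasDerivAt (fun θ => cos θ / q θ)
      ((-sin (Th t) * q (Th t) - cos (Th t) *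
        ((sin (Th t) ^ 3 * cos (Th t) - cos (Th t) ^ 3 * sin (Th t)) / q (Th t) ^ 3)) /
          q (Th t) ^ 2) (Th t) :=
    (hasDerivAt_cos (Th t)).div (q_hasDeriv (Th t)) hq
  have h2 := h1.comp t (Th_hasDeriv t)
  refine h2.congr_deriv ?_
  rw [← q_sq]
  unfold yy
  have hw := q_four (Th t)
  unfold w at hw
  have hcs := sin_sq_add_cos_sq (Th t)
  field_simp
  generalize cos (Th t) = c at *
  generalize sin (Th t) = s at *
  generalize q (Th t) = Q at *
  have : c ^ 2 = 1 - s ^ 2 := by linarith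
  rw [hw]
  have e : c ^ 4 = (c ^ 2) ^ 2 := by ring
  rw [e, this]
  linear_combination (0:ℝ) * this

lemma yy_hasDeriv (t : ℝ) : HasDerivAt yy ((xx t) ^ 3) t := by
  have hq := (q_pos (Th t)).ne'
  have h1 : HasDerivAt (fun θ => sin θ / q θ)
      ((cos (Th t) * q (Th t) - sin (Th t) *
        ((sin (Th t) ^ 3 * cos (Th t) - cos (Th t) ^ 3 * sin (Th t)) / q (Th t) ^ 3)) /
          q (Th t) ^ 2) (Th t) :=
    (hasDerivAt_sin (Th t)).div (q_hasDeriv (Th t)) hq
  have h2 := h1.comp t (Th_hasDeriv t)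
  refine h2.congr_deriv ?_
  rw [← q_sq]
  unfold xx
  have hw := q_four (Th t)
  unfold w at hw
  have hcs := sin_sq_add_cos_sq (Th t)
  field_simp
  generalize cos (Th t) = c at *
  generalize sin (Th t) = s at *
  generalize q (Th t) = Q at *
  have : s ^ 2 = 1 - c ^ 2 := by linarith
  rw [hw]
  have e : s ^ 4 = (s ^ 2) ^ 2 := by ring
  rw [e, this]
  linear_combination (0:ℝ) * this

lemma xx_bound (t : ℝ) : |xx t| ≤ 2 := by
  unfold xx
  rw [abs_div, abs_of_pos (q_pos _), div_le_iff₀ (q_pos _)]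
  have h1 := abs_cos_le_one (Th t)
  have h2 := q_ge (Th t)
  linarith

lemma yy_bound (t : ℝ) : |yy t| ≤ 2 := by
  unfold yy
  rw [abs_div, abs_of_pos (q_pos _), div_le_iff₀ (q_pos _)]
  have h1 := abs_sin_le_one (Th t)
  have h2 := q_ge (Th t)
  linarith

lemma Th_zero : Th 0 = 0 := by
  have := Th_Tf 0
  rwa [Tf_zero] at this

lemma xx_zero : xx 0 = 1 := by
  simp [xx, Th_zero, q, g, w]

lemma xx_quarter : xx (Tf (π / 2)) = 0 := by
  simp [xx, Th_Tf]

lemma xx_continuous : Continuous xx :=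
  continuous_iff_continuousAt.2 fun t => (xx_hasDeriv t).continuousAt

lemma xx_range : Icc (0:ℝ) 1 ⊆ range xx := by
  have h := intermediate_value_uIcc (a := 0) (b := Tf (π / 2)) (f := xx) xx_continuous.continuousOn
  rw [xx_zero, xx_quarter, uIcc_of_ge (by norm_num : (0:ℝ) ≤ 1)] at h
  exact h.trans (image_subset_range _ _)

end Pool.Agent.H464R2
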