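import Pool.Agent.H464R2.Fin1
import Pool.Agent.H464R2.Orb1

set_option autoImplicit false

namespace Pool.Agent.H464R2

open Set Filter Topology Asymptotics MvPolynomial

/-- the cubic homogeneous field `(-y^3, x^3)` -/
noncomputable def Qf : Fin 2 → MvPolynomial (Fin 2) ℂ := ![-(X 1 ^ 3), X 0 ^ 3]

lemma Qf_hom : ∀ i, (Qf i).IsHomogeneous 3 := by
  intro i
  fin_cases i
  · show (-(X 1 ^ 3) : MvPolynomial (Fin 2) ℂ).IsHomogeneous 3
    exact (isHomogeneous_X_pow 1 3).neg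
  · show (X 0 ^ 3 : MvPolynomial (Fin 2) ℂ).IsHomogeneous 3
    exact isHomogeneous_X_pow 0 3

lemma Qf_eval (z : Fin 2 → ℂ) : (fun i => eval z (Qf i)) = ![-(z 1) ^ 3, (z 0) ^ 3] := by
  ext i
  fin_cases i
  · simp [Qf]
  · simp [Qf]

lemma F_zero : F 0 = 0 := by
  ext i; fin_cases i <;> simp [F]

lemma F_analytic : AnalyticAt ℂ F 0 := by
  rw [analyticAt_pi_iff]
  have a : ∀ i : Fin 2, AnalyticAt ℂ (fun z : Fin 2 → ℂ => z i) 0 := fun i =>
    (ContinuousLinearMap.proj (R := ℂ) (φ := fun _ : Fin 2 => ℂ) i).analyticAt 0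
  intro i
  fin_cases i
  · show AnalyticAt ℂ (fun z : Fin 2 → ℂ => z 0 - z 1 ^ 3 + z 0 ^ 4) 0
    exact ((a 0).sub ((a 1).pow 3)).add ((a 0).pow 4)
  · show AnalyticAt ℂ (fun z : Fin 2 → ℂ => z 1 + z 0 ^ 3 + z 1 ^ 4) 0
    exact ((a 1).add ((a 0).pow 3)).add ((a 1).pow 4)

lemma F_bigO : (fun z : Fin 2 → ℂ => F z - z - (fun i => eval z (Qf i)))
        =O[𝓝 0] (fun z : Fin 2 → ℂ => ‖z‖ ^ (3 + 1)) := by
  refine isBigO_of_le _ ?_
  intro z
  rw [Qf_eval]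
  have h : F z - z - ![-(z 1) ^ 3, (z 0) ^ 3] = ![z 0 ^ 4, z 1 ^ 4] := by
    ext i
    fin_cases i
    · show (z 0 - z 1 ^ 3 + z 0 ^ 4) - z 0 - (-(z 1) ^ 3) = z 0 ^ 4
      ring
    · show (z 1 + z 0 ^ 3 + z 1 ^ 4) - z 1 - (z 0) ^ 3 = z 1 ^ 4
      ring
  rw [h]
  rw [Real.norm_of_nonneg (by positivity)]
  rw [pi_norm_le_iff_of_nonneg (by positivity)]
  intro i
  fin_cases i
  · show ‖z 0 ^ 4‖ ≤ _
    rw [norm_pow]
    exact pow_le_pow_left₀ (norm_nonneg _) (norm_le_pi_norm z 0) 4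
  · show ‖z 1 ^ 4‖ ≤ _
    rw [norm_pow]
    exact pow_le_pow_left₀ (norm_nonneg _) (norm_le_pi_norm z 1) 4

lemma Qf_nondeg : ∀ (v : Fin 2 → ℂ) (c : ℂ), v ≠ 0 →
        (fun i => MvPolynomial.eval v (Qf i)) = c • v → c ≠ 0 := by
  intro v c hv h hc
  subst hc
  rw [Qf_eval, zero_smul] at h
  apply hv
  have h0 := congrFun h 0
  have h1 := congrFun h 1
  simp at h0 h1
  ext i
  fin_cases i
  · simpa using h1
  · simpa using h0

/-- the closed orbits -/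
noncomputable def Z (l t : ℝ) : Fin 2 → ℂ :=
  ![((l * xx (l ^ 2 * t) : ℝ) : ℂ), ((l * yy (l ^ 2 * t) : ℝ) : ℂ)]

lemma Z_hasDeriv (l t : ℝ) : HasDerivAt (Z l) (fun i => eval (Z l t) (Qf i)) t := by
  rw [Qf_eval, hasDerivAt_pi]
  have hl : HasDerivAt (fun t : ℝ => l ^ 2 * t) (l ^ 2) t := by
    simpa using (hasDerivAt_id t).const_mul (l ^ 2)
  intro i
  fin_cases i
  · show HasDerivAt (fun t => ((l * xx (l ^ 2 * t) : ℝ) : ℂ))
      (-((l * yy (l ^ 2 * t) : ℝ) : ℂ) ^ 3) t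
    have h1 : HasDerivAt (fun t => xx (l ^ 2 * t)) (-(yy (l ^ 2 * t)) ^ 3 * l ^ 2) t :=
      (xx_hasDeriv (l ^ 2 * t)).comp t hl
    have h2 := (h1.const_mul l).ofReal_comp
    refine h2.congr_deriv ?_
    push_cast
    ring
  · show HasDerivAt (fun t => ((l * yy (l ^ 2 * t) : ℝ) : ℂ))
      (((l * xx (l ^ 2 * t) : ℝ) : ℂ) ^ 3) t
    have h1 : HasDerivAt (fun t => yy (l ^ 2 * t)) ((xx (l ^ 2 * t)) ^ 3 * l ^ 2) t :=
      (yy_hasDeriv (l ^ 2 * t)).comp t hl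
    have h2 := (h1.const_mul l).ofReal_comp
    refine h2.congr_deriv ?_
    push_cast
    ring

lemma Z_norm (l t : ℝ) : ‖Z l t‖ ≤ 2 * |l| := by
  rw [pi_norm_le_iff_of_nonneg (by positivity)]
  intro i
  fin_cases i
  · show ‖((l * xx (l ^ 2 * t) : ℝ) : ℂ)‖ ≤ _
    rw [Complex.norm_real, Real.norm_eq_abs, abs_mul]
    have := xx_bound (l ^ 2 * t)
    nlinarith [abs_nonneg l]
  · show ‖((l * yy (l ^ 2 * t) : ℝ) : ℂ)‖ ≤ _
    rw [Complex.norm_real, Real.norm_eq_abs, abs_mul]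
    have := yy_bound (l ^ 2 * t)
    nlinarith [abs_nonneg l]

lemma Z_per (l t m : ℝ) (h : l ^ 2 * m = Tper) : Z l (t + m) = Z l t := by
  unfold Z
  rw [mul_add, h, xx_per, yy_per]

lemma Z_range_infinite (l : ℝ) (hl : l ≠ 0) : (range (Z l)).Infinite := by
  intro hfin
  have h1 : ((fun z : Fin 2 → ℂ => (z 0).re / l) '' range (Z l)).Finite := hfin.image _
  have h2 : Icc (0:ℝ) 1 ⊆ (fun z : Fin 2 → ℂ => (z 0).re / l) '' range (Z l) := by
    intro u hu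
    obtain ⟨s, hs⟩ := xx_range hu
    refine ⟨Z l (s / l ^ 2), ⟨_, rfl⟩, ?_⟩
    simp only [Z, Matrix.cons_val_zero, Complex.ofReal_re]
    have : l ^ 2 * (s / l ^ 2) = s := by field_simp
    rw [this, hs]
    field_simp
  exact (Set.Icc_infinite (by norm_num : (0:ℝ) < 1)) (h1.subset h2)

lemma cube_lip (R : ℝ) (a b : ℂ) (ha : ‖a‖ ≤ R) (hb : ‖b‖ ≤ R) :
    ‖a ^ 3 - b ^ 3‖ ≤ 3 * R ^ 2 * ‖a - b‖ := by
  have hR : 0 ≤ R := (norm_nonneg _).trans ha
  have h : a ^ 3 - b ^ 3 = (a ^ 2 + a * b + b ^ 2) * (a - b) := by ring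
  rw [h, norm_mul]
  refine mul_le_mul_of_nonneg_right ?_ (norm_nonneg _)
  calc ‖a ^ 2 + a * b + b ^ 2‖ ≤ ‖a ^ 2‖ + ‖a * b‖ + ‖b ^ 2‖ := norm_add₃_le
    _ = ‖a‖ ^ 2 + ‖a‖ * ‖b‖ + ‖b‖ ^ 2 := by rw [norm_pow, norm_mul, norm_pow]
    _ ≤ R ^ 2 + R * R + R ^ 2 := by gcongr
    _ = 3 * R ^ 2 := by ring

lemma Qf_lip (R : ℝ) (hR : 0 ≤ R) :
    LipschitzOnWith (Real.toNNReal (3 * R ^ 2))
      (fun z : Fin 2 → ℂ => fun i => eval z (Qf i)) (Metric.closedBall 0 R) := by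
  apply LipschitzOnWith.of_dist_le_mul
  intro a ha b hb
  rw [Real.coe_toNNReal _ (by positivity), Qf_eval, Qf_eval]
  rw [mem_closedBall_zero_iff] at ha hb
  have ha' : ∀ i, ‖a i‖ ≤ R := fun i => (norm_le_pi_norm a i).trans ha
  have hb' : ∀ i, ‖b i‖ ≤ R := fun i => (norm_le_pi_norm b i).trans hb
  rw [dist_pi_le_iff (by positivity)]
  intro i
  fin_cases i
  · show dist (-(a 1) ^ 3) (-(b 1) ^ 3) ≤ _
    rw [dist_neg_neg, dist_eq_norm]
    refine (cube_lip R _ _ (ha' 1) (hb' 1)).trans ?_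
    refine mul_le_mul_of_nonneg_left ?_ (by positivity)
    rw [← dist_eq_norm]
    exact dist_le_pi_dist a b 1
  · show dist ((a 0) ^ 3) ((b 0) ^ 3) ≤ _
    rw [dist_eq_norm]
    refine (cube_lip R _ _ (ha' 0) (hb' 0)).trans ?_
    refine mul_le_mul_of_nonneg_left ?_ (by positivity)
    rw [← dist_eq_norm]
    exact dist_le_pi_dist a b 0

/-- uniqueness of the time-one map -/
lemma flow_unique (γ δ : ℝ → (Fin 2 → ℂ)) (h0 : γ 0 = δ 0)
    (hγ : ∀ t ∈ Icc (0:ℝ) 1, HasDerivWithinAt γ (fun i => eval (γ t) (Qf i)) (Icc 0 1) t)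
    (hδ : ∀ t ∈ Icc (0:ℝ) 1, HasDerivWithinAt δ (fun i => eval (δ t) (Qf i)) (Icc 0 1) t) :
    γ 1 = δ 1 := by
  have hcγ : ContinuousOn γ (Icc 0 1) := fun t ht => (hγ t ht).continuousWithinAt
  have hcδ : ContinuousOn δ (Icc 0 1) := fun t ht => (hδ t ht).continuousWithinAt
  obtain ⟨R1, hR1⟩ := (isCompact_Icc.image_of_continuousOn hcγ).isBounded.subset_closedBall 0
  obtain ⟨R2, hR2⟩ := (isCompact_Icc.image_of_continuousOn hcδ).isBounded.subset_closedBall 0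
  set R := max R1 (max R2 0) with hR
  have hR0 : 0 ≤ R := le_max_of_le_right (le_max_right _ _)
  have hnhds : ∀ t ∈ Ico (0:ℝ) 1, Icc (0:ℝ) 1 ∈ 𝓝[Ici t] t := by
    intro t ht
    have : Icc t 1 ∈ 𝓝[Ici t] t := Icc_mem_nhdsGE ht.2
    exact mem_of_superset this (Icc_subset_Icc_left ht.1)
  have key := ODE_solution_unique_of_mem_Icc_right (E := Fin 2 → ℂ)
    (v := fun _ z => fun i => eval z (Qf i)) (s := fun _ => Metric.closedBall 0 R)
    (K := Real.toNNReal (3 * R ^ 2)) (f := γ) (g := δ) (a := 0) (b := 1)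
    (fun t _ => Qf_lip R hR0) hcγ
    (fun t ht => (hγ t (Ico_subset_Icc_self ht)).mono_of_mem_nhdsWithin (hnhds t ht))
    (fun t ht => Metric.closedBall_subset_closedBall (le_max_left _ _)
      (hR1 (mem_image_of_mem _ (Ico_subset_Icc_self ht))))
    hcδ
    (fun t ht => (hδ t (Ico_subset_Icc_self ht)).mono_of_mem_nhdsWithin (hnhds t ht))
    (fun t ht => Metric.closedBall_subset_closedBall
      (le_max_of_le_right (le_max_left _ _))
      (hR2 (mem_image_of_mem _ (Ico_subset_Icc_self ht))))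
    h0
  exact key (right_mem_Icc.2 zero_le_one)

theorem no_conj : ¬ ∃ (U V : Set (Fin 2 → ℂ)) (h k : (Fin 2 → ℂ) → (Fin 2 → ℂ)),
        IsOpen U ∧ IsOpen V ∧ (0 : Fin 2 → ℂ) ∈ U ∧ h 0 = 0 ∧
        ContinuousOn h U ∧ ContinuousOn k V ∧
        Set.MapsTo h U V ∧ Set.MapsTo k V U ∧
        Set.LeftInvOn k h U ∧ Set.RightInvOn k h V ∧
        ∀ᶠ z in 𝓝 (0 : Fin 2 → ℂ),
          ∃ γ : ℝ → (Fin 2 → ℂ), γ 0 = h z ∧ γ 1 = h (F z) ∧
            ∀ t ∈ Set.Icc (0 : ℝ) 1,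
              HasDerivWithinAt γ (fun i => MvPolynomial.eval (γ t) (Qf i)) (Set.Icc 0 1) t := by
  rintro ⟨U, V, h, k, hU, hV, h0U, hh0, -, hk, hhU, hkV, hleft, hright, hev⟩
  have h0V : (0 : Fin 2 → ℂ) ∈ V := by
    have := hhU h0U
    rwa [hh0] at this
  have hk0 : k 0 = 0 := by
    have := hleft h0U
    rwa [hh0] at this
  have hFc : Tendsto F (𝓝 0) (𝓝 0) := by
    have := F_analytic.continuousAt.tendsto
    rwa [F_zero] at this
  have hW : ∀ᶠ z in 𝓝 (0 : Fin 2 → ℂ), z ∈ U ∧ F z ∈ U ∧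
      ∃ γ : ℝ → (Fin 2 → ℂ), γ 0 = h z ∧ γ 1 = h (F z) ∧
            ∀ t ∈ Set.Icc (0 : ℝ) 1,
              HasDerivWithinAt γ (fun i => MvPolynomial.eval (γ t) (Qf i)) (Set.Icc 0 1) t :=
    (show ∀ᶠ z in 𝓝 (0 : Fin 2 → ℂ), z ∈ U from hU.mem_nhds h0U).and
      ((hFc.eventually (hU.mem_nhds h0U)).and hev)
  have hkc : Tendsto k (𝓝 0) (𝓝 0) := by
    have := (hk.continuousAt (hV.mem_nhds h0V)).tendsto
    rwa [hk0] at this
  have hW2 := (hkc.eventually hW).and (hV.mem_nhds h0V)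
  obtain ⟨δ, hδ, hball⟩ := Metric.eventually_nhds_iff_ball.1 hW2
  -- choose m
  obtain ⟨m, hm⟩ := exists_nat_gt (Tper * 4 / δ ^ 2 + 1)
  have hm1 : (0:ℝ) < m := by
    have := Tper_pos
    have : 0 < Tper * 4 / δ ^ 2 := by positivity
    linarith
  have hmN : 0 < m := by exact_mod_cast hm1
  set l := √(Tper / m) with hl
  have hlpos : 0 < l := Real.sqrt_pos.2 (div_pos Tper_pos hm1)
  have hl2 : l ^ 2 = Tper / m := Real.sq_sqrt (div_pos Tper_pos hm1).le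
  have hlm : l ^ 2 * m = Tper := by rw [hl2]; field_simp
  have hlδ : 2 * l < δ := by
    have h1 : Tper * 4 / δ ^ 2 < m := by linarith
    rw [div_lt_iff₀ (by positivity)] at h1
    have h2 : l ^ 2 * 4 < δ ^ 2 := by
      rw [hl2, div_mul_eq_mul_div, div_lt_iff₀ hm1]
      linarith
    nlinarith
  have hZball : ∀ t, Z l t ∈ Metric.ball (0 : Fin 2 → ℂ) δ := by
    intro t
    rw [mem_ball_zero_iff]
    have := Z_norm l t
    rw [abs_of_pos hlpos] at this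
    linarith
  have hZV : ∀ t, Z l t ∈ V := fun t => (hball _ (hZball t)).2
  have step : ∀ s, F (k (Z l s)) = k (Z l (s + 1)) := by
    intro s
    obtain ⟨⟨-, hFU, γ, hγ0, hγ1, hγ⟩, -⟩ := hball _ (hZball s)
    rw [hright (hZV s)] at hγ0
    have huniq : γ 1 = (fun t => Z l (s + t)) 1 := by
      refine flow_unique γ (fun t => Z l (s + t)) ?_ hγ ?_
      · simp [hγ0]
      · intro t _
        have := (Z_hasDeriv l (s + t)).comp_const_add s t
        exact this.hasDerivWithinAt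
    rw [hγ1] at huniq
    have := congrArg k huniq
    rw [hleft hFU] at this
    exact this
  have iter : ∀ (j : ℕ) s, F^[j] (k (Z l s)) = k (Z l (s + j)) := by
    intro j
    induction j with
    | zero => intro s; simp
    | succ j ih =>
      intro s
      rw [Function.iterate_succ_apply', ih, step]
      push_cast
      ring_nf
  have hfix : ∀ s, k (Z l s) ∈ {z : Fin 2 → ℂ | F^[m] z = z} := by
    intro s
    show F^[m] (k (Z l s)) = k (Z l s)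
    rw [iter, Z_per l s m hlm]
  have hinj : InjOn k (range (Z l)) := by
    rintro _ ⟨s, rfl⟩ _ ⟨t, rfl⟩ hst
    have := congrArg h hst
    rwa [hright (hZV s), hright (hZV t)] at this
  have hinf : (k '' range (Z l)).Infinite := (Z_range_infinite l hlpos.ne').image hinj
  refine hinf ((finite_periodic m hmN).subset ?_)
  rintro _ ⟨_, ⟨s, rfl⟩, rfl⟩
  exact hfix s

end Pool.Agent.H464R2
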