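import Mathlib
import Pool.Agent.H922R2.OPC.Stubs

/-! Task DIM: order of the pole = dimension of the quotient. -/

set_option autoImplicit false

open MvPolynomial

namespace Pool.Agent.H464R2.OPCDIM

open Pool.Agent.H922R2.OPC

section
variable {k : Type} [Field k]

/-- `b ↦ sp 0 (ev b)` -/
noncomputable def sL (n : ℕ) (φ : L k) : B k →ₗ[k] LaurentSeries k where
  toFun b := sp 0 (ev n φ b)
  map_add' a b := by
    ext i
    simp [sp]
  map_smul' c a := by
    ext i
    have h1 : ev n φ (c • a) = HahnSeries.C (Polynomial.C c) * ev n φ a := by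
      rw [MvPolynomial.smul_eq_C_mul, map_mul]
      congr 1
      rw [ev, MvPolynomial.aeval_C, HahnSeries.algebraMap_apply', PowerSeries.algebraMap_apply,
        HahnSeries.ofPowerSeries_C]
      rfl
    rw [h1, HahnSeries.C_mul_eq_smul]
    simp only [sp, HahnSeries.map_coeff, HahnSeries.coeff_smul, RingHom.id_apply, smul_eq_mul,
      Polynomial.coe_evalRingHom, Polynomial.eval_mul, Polynomial.eval_C]

/-- Laurent series of order `≥ -m` -/
def G (m : ℤ) : Submodule k (LaurentSeries k) where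
  carrier := {h | Ge (-m) h}
  add_mem' {a b} ha hb i hi := by
    have h1 := ha i hi
    have h2 := hb i hi
    simp [h1, h2]
  zero_mem' i _ := by simp
  smul_mem' c a ha i hi := by
    have h1 := ha i hi
    simp [h1]

lemma mem_G (m : ℤ) (h : LaurentSeries k) : h ∈ G m ↔ Ge (-m) h := Iff.rfl

lemma G_mono {m m' : ℤ} (h : m ≤ m') : G (k := k) m ≤ G m' := by
  intro x hx i hi
  exact hx i (by omega)

lemma exists_G (x : LaurentSeries k) : ∃ m : ℕ, x ∈ G (m : ℤ) := by
  refine ⟨(-x.order).toNat, ?_⟩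
  intro i hi
  apply HahnSeries.coeff_eq_zero_of_lt_order
  omega

/-- adding one pole order adds at most one dimension -/
lemma step (R : Submodule k (LaurentSeries k)) (m : ℤ) :
    ∃ v : LaurentSeries k, R ⊓ G (m + 1) ≤ (R ⊓ G m) ⊔ Submodule.span k {v} := by
  by_cases h : ∃ v ∈ R ⊓ G (m + 1), HahnSeries.coeff v (-(m + 1)) ≠ 0
  · obtain ⟨v, hv, hc⟩ := h
    refine ⟨v, ?_⟩
    intro x hx
    rw [Submodule.mem_sup]
    set c : k := HahnSeries.coeff x (-(m + 1)) / HahnSeries.coeff v (-(m + 1)) with hcdef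
    refine ⟨x - c • v, ?_, c • v, Submodule.smul_mem _ _ (Submodule.mem_span_singleton_self v), by abel⟩
    have h1 : x - c • v ∈ R ⊓ G (m + 1) := Submodule.sub_mem _ hx (Submodule.smul_mem _ _ hv)
    refine ⟨h1.1, ?_⟩
    intro i hi
    rcases lt_or_eq_of_le (show i ≤ -(m + 1) by omega) with h2 | h2
    · exact h1.2 i h2
    · rw [h2]
      simp only [HahnSeries.coeff_sub, HahnSeries.coeff_smul, smul_eq_mul]
      rw [hcdef, div_mul_cancel₀ _ hc, sub_self]
  · push Not at h
    refine ⟨0, ?_⟩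
    refine le_trans ?_ le_sup_left
    intro x hx
    refine ⟨hx.1, ?_⟩
    intro i hi
    rcases lt_or_eq_of_le (show i ≤ -(m + 1) by omega) with h2 | h2
    · exact hx.2 i h2
    · rw [h2]; exact h x hx

lemma step' (R : Submodule k (LaurentSeries k)) (m : ℤ) (hf : Module.Finite k ↥(R ⊓ G m)) :
    Module.Finite k ↥(R ⊓ G (m + 1)) ∧
      Module.finrank k ↥(R ⊓ G (m + 1)) ≤ Module.finrank k ↥(R ⊓ G m) + 1 := by
  obtain ⟨v, hv⟩ := step R m
  have hfin : Module.Finite k ↥((R ⊓ G m) ⊔ Submodule.span k {v}) := inferInstance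
  refine ⟨Submodule.finiteDimensional_of_le hv, ?_⟩
  calc _ ≤ Module.finrank k ↥((R ⊓ G m) ⊔ Submodule.span k {v}) := Submodule.finrank_mono hv
    _ ≤ Module.finrank k ↥(R ⊓ G m) + Module.finrank k ↥(Submodule.span k {v}) :=
        Submodule.finrank_add_le_finrank_add_finrank _ _
    _ ≤ _ := by
        have : Module.finrank k ↥(Submodule.span k {v}) ≤ 1 := by
          have := finrank_span_le_card (R := k) ({v} : Set (LaurentSeries k))
          simpa using this
        omega

lemma fin_all (R : Submodule k (LaurentSeries k)) (hR : R ⊓ G (-1) = ⊥) (m : ℕ) :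
    Module.Finite k ↥(R ⊓ G (m : ℤ)) := by
  induction m with
  | zero =>
    have h1 : Module.Finite k ↥(R ⊓ G (-1)) := by rw [hR]; infer_instance
    have := (step' R (-1) h1).1
    simpa using this
  | succ m ih =>
    have := (step' R m ih).1
    simpa using this

lemma rank_add (R : Submodule k (LaurentSeries k)) (hR : R ⊓ G (-1) = ⊥) (m j : ℕ) :
    Module.finrank k ↥(R ⊓ G ((m + j : ℕ) : ℤ)) ≤ Module.finrank k ↥(R ⊓ G (m : ℤ)) + j := by
  induction j with
  | zero => simp
  | succ j ih =>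
    have h1 := (step' R ((m + j : ℕ) : ℤ) (fin_all R hR _)).2
    have e : (((m + (j + 1) : ℕ)) : ℤ) = ((m + j : ℕ) : ℤ) + 1 := by push_cast; ring
    rw [e]
    omega

lemma rank_zero (R : Submodule k (LaurentSeries k)) (hR : R ⊓ G (-1) = ⊥) :
    Module.finrank k ↥(R ⊓ G ((0 : ℕ) : ℤ)) ≤ 1 := by
  have h1 : Module.Finite k ↥(R ⊓ G (-1)) := by rw [hR]; infer_instance
  have h2 := (step' R (-1) h1).2
  have h3 : Module.finrank k ↥(R ⊓ G (-1)) = 0 := by rw [hR]; simp
  rw [h3] at h2
  simpa using h2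

/-- multiplication by `c` -/
noncomputable def mulK (c : LaurentSeries k) : LaurentSeries k →ₗ[k] LaurentSeries k where
  toFun x := c * x
  map_add' a b := mul_add c a b
  map_smul' r a := by
    rw [RingHom.id_apply, ← HahnSeries.C_mul_eq_smul, ← HahnSeries.C_mul_eq_smul]
    ring

lemma mulK_inj (c : LaurentSeries k) (hc : c ≠ 0) : Function.Injective (mulK c) := by
  intro a b h
  exact mul_left_cancel₀ hc h

/-- lowest terms of a product -/
lemma low (S_mul : S_MUL) (c x : LaurentSeries k) (d0 : ℕ) (hc : Ge (-(d0 : ℤ)) c)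
    (hc0 : c.coeff (-(d0 : ℤ)) ≠ 0) (m : ℤ) : c * x ∈ G (k := k) (m + d0) ↔ x ∈ G (k := k) m := by
  constructor
  · intro h
    by_cases hx : x = 0
    · rw [hx]; exact Submodule.zero_mem _
    · by_contra hn
      -- order of x is < -m
      have h1 : Ge x.order x := fun i hi => HahnSeries.coeff_eq_zero_of_lt_order hi
      have h2 : x.order < -m := by
        by_contra h3
        apply hn
        intro i hi
        exact h1 i (by omega)
      have h3 := (S_mul k (-(d0 : ℤ)) x.order c x hc h1).2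
      have h4 : (c * x).coeff (-(d0 : ℤ) + x.order) = 0 := h _ (by omega)
      rw [h4] at h3
      have h5 : x.coeff x.order ≠ 0 := by
        intro h6
        exact hx (HahnSeries.coeff_order_eq_zero.1 h6)
      exact mul_ne_zero hc0 h5 h3.symm
  · intro h
    have h3 := (S_mul k (-(d0 : ℤ)) (-m) c x hc h).1
    intro i hi
    exact h3 i (by omega)

end

section main

variable {k : Type} [Field k]

/-- the abstract dimension count -/
lemma count (S_mul : S_MUL) {A : Type} [CommRing A] [Algebra k A] (s : A →ₗ[k] LaurentSeries k)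
    (hs : ∀ a b, s (a * b) = s a * s b)
    (hR : LinearMap.range s ⊓ G (-1) = ⊥)
    (I : Ideal A) (h : A) (hI : ∀ b, b ∈ I ↔ ∃ c, s b = s h * s c)
    (d d0 : ℕ) (hc : Ge (-(d0 : ℤ)) (s h)) (hc0 : (s h).coeff (-(d0 : ℤ)) ≠ 0)
    (hfin : Module.Finite k (A ⧸ I)) (hd : Module.finrank k (A ⧸ I) = d) :
    d ≤ d0 ∧ ∀ m : ℕ, Module.finrank k ↥(LinearMap.range s ⊓ G ((m + d0 : ℕ) : ℤ)) ≤
      Module.finrank k ↥(LinearMap.range s ⊓ G (m : ℤ)) + d := by
  classical
  set R := LinearMap.range s with hRdef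
  have hne : s h ≠ 0 := by
    intro h1
    rw [h1] at hc0
    exact hc0 (by simp)
  set J : Submodule k (LaurentSeries k) := R.map (mulK (s h)) with hJ
  -- the map to the quotient
  set Φ : A →ₗ[k] (LaurentSeries k ⧸ J) := J.mkQ ∘ₗ s with hΦ
  have hker : LinearMap.ker Φ = I.restrictScalars k := by
    ext b
    rw [LinearMap.mem_ker, Submodule.restrictScalars_mem, hI, hΦ, LinearMap.comp_apply,
      Submodule.mkQ_apply, Submodule.Quotient.mk_eq_zero, hJ, Submodule.mem_map]
    constructor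
    · rintro ⟨y, ⟨c, rfl⟩, hy⟩
      exact ⟨c, hy.symm⟩
    · rintro ⟨c, hc⟩
      exact ⟨s c, ⟨c, rfl⟩, hc.symm⟩
  set Z := LinearMap.range Φ with hZ
  have eqv : (A ⧸ I) ≃ₗ[k] Z := by
    have e1 : (A ⧸ LinearMap.ker Φ) ≃ₗ[k] Z := Φ.quotKerEquivRange
    have e2 : (A ⧸ I.restrictScalars k) ≃ₗ[k] (A ⧸ LinearMap.ker Φ) :=
      Submodule.quotEquivOfEq _ _ hker.symm
    exact (Submodule.Quotient.restrictScalarsEquiv k I).symm ≪≫ₗ e2 ≪≫ₗ e1
  have hZfin : Module.Finite k Z := Module.Finite.equiv eqv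
  have hZd : Module.finrank k Z = d := by rw [← hd]; exact eqv.finrank_eq.symm
  -- rank-nullity
  have key : ∀ m : ℕ, Module.finrank k ↥(R ⊓ G ((m + d0 : ℕ) : ℤ)) =
      Module.finrank k ↥(Submodule.map J.mkQ (R ⊓ G ((m + d0 : ℕ) : ℤ))) +
        Module.finrank k ↥(R ⊓ G (m : ℤ)) := by
    intro m
    have hf := fin_all R hR (m + d0)
    set V := R ⊓ G ((m + d0 : ℕ) : ℤ) with hV
    have h1 := LinearMap.finrank_range_add_finrank_ker (J.mkQ.domRestrict V)
    have h2 : LinearMap.range (J.mkQ.domRestrict V) = Submodule.map J.mkQ V :=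
      LinearMap.range_domRestrict _ _
    have h3 : Module.finrank k ↥(LinearMap.ker (J.mkQ.domRestrict V)) =
        Module.finrank k ↥(R ⊓ G (m : ℤ)) := by
      have h4 : (LinearMap.ker (J.mkQ.domRestrict V)).map V.subtype = (R ⊓ G (m : ℤ)).map (mulK (s h)) := by
        ext y
        constructor
        · rintro ⟨⟨y, hy⟩, h5, rfl⟩
          rw [SetLike.mem_coe, LinearMap.mem_ker, LinearMap.domRestrict_apply, Submodule.mkQ_apply,
            Submodule.Quotient.mk_eq_zero] at h5
          obtain ⟨x, hx, hxy⟩ := h5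
          refine ⟨x, ⟨hx, ?_⟩, hxy⟩
          have h6 : s h * x ∈ G (k := k) ((m : ℤ) + d0) := by
            have h7 : mulK (s h) x = y := hxy
            have h8 : s h * x = y := h7
            rw [h8]
            have := hy.2
            push_cast at this
            exact this
          exact (low S_mul (s h) x d0 hc hc0 m).1 h6
        · rintro ⟨x, ⟨hx1, hx2⟩, rfl⟩
          have h6 : s h * x ∈ G (k := k) ((m : ℤ) + d0) := (low S_mul (s h) x d0 hc hc0 m).2 hx2
          obtain ⟨c, rfl⟩ := hx1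
          have h7 : s h * s c ∈ V := by
            refine ⟨⟨h * c, hs _ _⟩, ?_⟩
            push_cast
            exact h6
          refine ⟨⟨s h * s c, h7⟩, ?_, rfl⟩
          rw [SetLike.mem_coe, LinearMap.mem_ker, LinearMap.domRestrict_apply, Submodule.mkQ_apply,
            Submodule.Quotient.mk_eq_zero]
          exact ⟨s c, ⟨c, rfl⟩, rfl⟩
      have h5 := LinearEquiv.finrank_eq (Submodule.equivMapOfInjective V.subtype
        (Submodule.injective_subtype V) (LinearMap.ker (J.mkQ.domRestrict V)))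
      have h6 := LinearEquiv.finrank_eq (Submodule.equivMapOfInjective (mulK (s h))
        (mulK_inj (s h) hne) (R ⊓ G (m : ℤ)))
      rw [h5, h6, h4]
    rw [h3, h2] at h1
    exact h1.symm
  have hle : ∀ m : ℕ, Submodule.map J.mkQ (R ⊓ G (m : ℤ)) ≤ Z := by
    intro m
    rintro _ ⟨x, ⟨⟨a, rfl⟩, _⟩, rfl⟩
    exact ⟨a, rfl⟩
  constructor
  · -- a large `m`
    obtain ⟨M, hM⟩ : ∃ M : ℕ, Z ≤ Submodule.map J.mkQ (R ⊓ G (M : ℤ)) := by
      let b := Module.finBasis k Z
      have hb : ∀ i, ∃ a : A, Φ a = (b i : LaurentSeries k ⧸ J) := fun i => (b i).2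
      choose a ha using hb
      have hm : ∀ i, ∃ m : ℕ, s (a i) ∈ G (k := k) (m : ℤ) := fun i => exists_G _
      choose mm hmm using hm
      refine ⟨Finset.univ.sup mm, ?_⟩
      have h1 : Z = Submodule.span k (Set.range fun i => (b i : LaurentSeries k ⧸ J)) := by
        have h2 := b.span_eq
        have h3 := congrArg (Submodule.map Z.subtype) h2
        rw [Submodule.map_span, Submodule.map_top, Submodule.range_subtype, ← Set.range_comp] at h3
        exact h3.symm
      refine (le_of_eq h1).trans ?_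
      rw [Submodule.span_le]
      rintro _ ⟨i, rfl⟩
      refine ⟨s (a i), ⟨⟨a i, rfl⟩, ?_⟩, ha i⟩
      apply G_mono _ (hmm i)
      exact_mod_cast Finset.le_sup (f := mm) (Finset.mem_univ i)
    have h1 := key M
    have hf := fin_all R hR (M + d0)
    have h2 : Z ≤ Submodule.map J.mkQ (R ⊓ G ((M + d0 : ℕ) : ℤ)) := by
      refine hM.trans (Submodule.map_mono ?_)
      exact inf_le_inf le_rfl (G_mono (by push_cast; omega))
    have h3 := Submodule.finrank_mono h2
    rw [hZd] at h3
    have h4 := rank_add R hR M d0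
    omega
  · intro m
    have h1 := key m
    have h3 := Submodule.finrank_mono (hle (m + d0))
    rw [hZd] at h3
    omega

/-! ### the lower bound -/

/-- `B → k[x][Y]` -/
noncomputable def Th : B k →ₐ[k] Polynomial (Polynomial k) :=
  aeval ![Polynomial.C Polynomial.X, Polynomial.X]

lemma Th_X0 : Th (X 0 : B k) = Polynomial.C Polynomial.X := by simp [Th]
lemma Th_X1 : Th (X 1 : B k) = Polynomial.X := by simp [Th]

lemma Th_aeval (a : Polynomial k) : Th (Polynomial.aeval (X 0 : B k) a) = Polynomial.C a := by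
  induction a using Polynomial.induction_on' with
  | add p q hp hq => rw [map_add, map_add, hp, hq, map_add]
  | monomial n c =>
    rw [Polynomial.aeval_monomial, map_mul, map_pow, Th_X0, ← Polynomial.C_mul_X_pow_eq_monomial, map_mul, map_pow]
    congr 1
    simp [Th, MvPolynomial.algebraMap_eq, Polynomial.algebraMap_apply]

lemma coeffs_zero {R : Type} [CommRing R] {n : ℕ} (a : Fin n → R)
    (h : ∑ i : Fin n, Polynomial.C (a i) * Polynomial.X ^ (i : ℕ) = 0) (i : Fin n) : a i = 0 := by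
  have h1 := congrArg (fun p => Polynomial.coeff p (i : ℕ)) h
  simp only [Polynomial.finsetSum_coeff, Polynomial.coeff_C_mul, Polynomial.coeff_X_pow,
    Polynomial.coeff_zero, mul_ite, mul_one, mul_zero] at h1
  rw [Finset.sum_eq_single i] at h1
  · simpa using h1
  · intro j _ hj
    rw [if_neg]
    intro h2
    exact hj (Fin.ext h2.symm)
  · intro h2
    exact absurd (Finset.mem_univ i) h2

/-- a polynomial of `y`-degree `< n` divisible by `f` is zero -/
lemma low_degree (n : ℕ) (f : B k) (a : ℕ → Polynomial k)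
    (hf : f = X 1 ^ n + ∑ j ∈ Finset.range n, Polynomial.aeval (X 0) (a j) * X 1 ^ j)
    (γ : Fin n → Polynomial k)
    (hd : f ∣ ∑ j : Fin n, Polynomial.aeval (X 0 : B k) (γ j) * X 1 ^ (j : ℕ)) (j : Fin n) : γ j = 0 := by
  have e1 : Th f = Polynomial.X ^ n + ∑ j : Fin n, Polynomial.C (a j) * Polynomial.X ^ (j : ℕ) := by
    rw [hf, map_add, map_pow, Th_X1, map_sum, Finset.sum_range]
    congr 1
    apply Finset.sum_congr rfl
    intro j _
    rw [map_mul, map_pow, Th_X1, Th_aeval]
  have e2 : Th (∑ j : Fin n, Polynomial.aeval (X 0 : B k) (γ j) * X 1 ^ (j : ℕ)) =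
      ∑ j : Fin n, Polynomial.C (γ j) * Polynomial.X ^ (j : ℕ) := by
    rw [map_sum]
    apply Finset.sum_congr rfl
    intro j _
    rw [map_mul, map_pow, Th_X1, Th_aeval]
  have h1 : (Th f).Monic := by
    rw [e1]
    exact Polynomial.monic_X_pow_add (Polynomial.degree_sum_fin_lt _)
  have h2 : (Th f).degree = n := by
    rw [e1, Polynomial.degree_add_eq_left_of_degree_lt]
    · exact Polynomial.degree_X_pow n
    · rw [Polynomial.degree_X_pow]
      exact Polynomial.degree_sum_fin_lt _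
  have h3 : Th f ∣ ∑ j : Fin n, Polynomial.C (γ j) * Polynomial.X ^ (j : ℕ) := by
    rw [← e2]
    exact map_dvd Th hd
  have h4 : ∑ j : Fin n, Polynomial.C (γ j) * Polynomial.X ^ (j : ℕ) = 0 := by
    by_contra hne
    exact h1.not_dvd_of_degree_lt hne (by rw [h2]; exact Polynomial.degree_sum_fin_lt _) h3
  exact coeffs_zero γ h4 j

/-- lower bound on the dimension -/
lemma lower (S_mul : S_MUL) (n : ℕ) (f : B k) (a : ℕ → Polynomial k)
    (hf : f = X 1 ^ n + ∑ j ∈ Finset.range n, Polynomial.aeval (X 0) (a j) * X 1 ^ j)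
    (s : B k →ₗ[k] LaurentSeries k) (hs : ∀ a b, s (a * b) = s a * s b) (hs1 : s 1 = 1)
    (hx : Ge (-(n : ℤ)) (s (X 0))) (hker : ∀ b, s b = 0 → f ∣ b)
    (hR : LinearMap.range s ⊓ G (-1) = ⊥) :
    ∃ q : ℕ, ∀ M : ℕ, n * M ≤ Module.finrank k ↥(LinearMap.range s ⊓ G ((n * (M + q) : ℕ) : ℤ)) := by
  obtain ⟨q, hq⟩ := exists_G (s (X 1))
  refine ⟨q, ?_⟩
  intro M
  have hf' := fin_all _ hR (n * (M + q))
  have hpow : ∀ (b : B k) (w : ℤ), Ge w (s b) → ∀ i : ℕ, Ge (i * w) (s (b ^ i)) := by
    intro b w hb i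
    induction i with
    | zero =>
      rw [pow_zero, hs1]
      intro j hj
      rw [HahnSeries.coeff_one, if_neg (by push_cast at hj; omega)]
    | succ i ih =>
      rw [pow_succ, hs]
      have := (S_mul k _ _ _ _ ih hb).1
      have e : ((i + 1 : ℕ) : ℤ) * w = (i : ℤ) * w + w := by push_cast; ring
      rw [e]
      exact this
  have hmem : ∀ p : Fin n × Fin M, s (X 0 ^ (p.2 : ℕ) * X 1 ^ (p.1 : ℕ)) ∈
      LinearMap.range s ⊓ G ((n * (M + q) : ℕ) : ℤ) := by
    intro p
    refine ⟨⟨_, rfl⟩, ?_⟩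
    rw [hs]
    have h1 := hpow _ _ hx p.2
    have h2 := hpow _ _ hq p.1
    have h3 := (S_mul k _ _ _ _ h1 h2).1
    intro i hi
    apply h3
    have h4 : ((p.2 : ℕ) : ℤ) * n ≤ (M : ℤ) * n :=
      mul_le_mul_of_nonneg_right (by exact_mod_cast p.2.2.le) (by positivity)
    have h5 : ((p.1 : ℕ) : ℤ) * q ≤ (n : ℤ) * q :=
      mul_le_mul_of_nonneg_right (by exact_mod_cast p.1.2.le) (by positivity)
    push_cast at hi
    nlinarith
  have hlin : LinearIndependent k (fun p : Fin n × Fin M =>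
      (⟨_, hmem p⟩ : ↥(LinearMap.range s ⊓ G ((n * (M + q) : ℕ) : ℤ)))) := by
    rw [Fintype.linearIndependent_iff]
    intro g hg
    have h1 := congrArg Subtype.val hg
    rw [AddSubmonoidClass.coe_finsetSum] at h1
    simp only [SetLike.val_smul, ZeroMemClass.coe_zero] at h1
    have h2 : s (∑ j : Fin n, Polynomial.aeval (X 0 : B k)
        (∑ i : Fin M, Polynomial.C (g (j, i)) * Polynomial.X ^ (i : ℕ)) * X 1 ^ (j : ℕ)) = 0 := by
      rw [← h1, Fintype.sum_prod_type, map_sum]
      apply Finset.sum_congr rfl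
      intro j _
      rw [map_sum, Finset.sum_mul, map_sum]
      apply Finset.sum_congr rfl
      intro i _
      rw [← map_smul]
      congr 1
      rw [map_mul (Polynomial.aeval (X 0 : B k)), Polynomial.aeval_C, map_pow, Polynomial.aeval_X,
        MvPolynomial.smul_eq_C_mul, mul_assoc]
      rfl
    intro p
    have h3 := low_degree n f a hf _ (hker _ h2) p.1
    exact coeffs_zero (fun i : Fin M => g (p.1, i)) h3 p.2
  have := hlin.fintype_card_le_finrank
  simpa using this

end main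

/-- DIM: order of the pole = dimension of the quotient -/
theorem dim (k : Type) [Field k] [IsAlgClosed k] [CharZero k] : S_DIM k := by
  intro S_mul S_spr n f φ ζ hOP S_mon hker hpos h d hfin hd hne
  obtain ⟨a, hf⟩ := S_mon n f φ ζ hOP
  obtain ⟨Rh, hRh⟩ := S_spr 0
  have hn : 0 < n := hOP.1
  have sdef : ∀ b, sL n φ b = sp 0 (ev n φ b) := fun b => rfl
  have hs : ∀ a b, sL n φ (a * b) = sL n φ a * sL n φ b := by
    intro a b
    rw [sdef, sdef, sdef, ← hRh, ← hRh, ← hRh, map_mul, map_mul]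
  have hs1 : sL n φ 1 = 1 := by rw [sdef, ← hRh, map_one, map_one]
  have hR : LinearMap.range (sL n φ) ⊓ G (-1) = ⊥ := by
    rw [eq_bot_iff]
    rintro _ ⟨⟨b, rfl⟩, hb⟩
    rw [Submodule.mem_bot, sdef]
    apply hpos
    have h1 : Ge (-(-1)) (sL n φ b) := hb
    rw [neg_neg] at h1
    exact h1
  have hx : Ge (-(n : ℤ)) (sL n φ (X 0)) := by
    intro i hi
    rw [sdef]
    simp only [ev, aeval_X, Matrix.cons_val_zero, sp, HahnSeries.map_coeff, tp]
    rw [HahnSeries.coeff_single_of_ne (by omega)]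
    simp
  have hker0 : ∀ b, sL n φ b = 0 → f ∣ b := by
    intro b hb
    have := (hker b).1 hb
    rwa [map_zero, sub_zero] at this
  -- the order
  set o := (sp 0 (ev n φ h)).order with ho
  have ho1 : Ge o (sp 0 (ev n φ h)) := fun i hi => HahnSeries.coeff_eq_zero_of_lt_order hi
  have ho2 : (sp 0 (ev n φ h)).coeff o ≠ 0 := by
    intro h6
    exact hne (HahnSeries.coeff_order_eq_zero.1 h6)
  have ho3 : o ≤ 0 := by
    by_contra h1
    apply hne
    apply hpos
    intro i hi
    exact ho1 i (by omega)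
  obtain ⟨d0, hd0⟩ : ∃ d0 : ℕ, o = -(d0 : ℤ) := ⟨(-o).toNat, by omega⟩
  rw [hd0] at ho1 ho2
  have hI : ∀ b, b ∈ Ideal.span {f, h} ↔ ∃ c, sL n φ b = sL n φ h * sL n φ c := by
    intro b
    rw [Ideal.mem_span_pair]
    constructor
    · rintro ⟨u, v, rfl⟩
      refine ⟨v, ?_⟩
      have h1 : sL n φ (u * f) = 0 := by
        rw [sdef, hker, map_zero, sub_zero]
        exact Dvd.intro_left u rfl
      rw [map_add, h1, zero_add, hs, mul_comm]
    · rintro ⟨c, hc⟩
      have h1 : sL n φ (b - h * c) = 0 := by rw [map_sub, hs, hc, sub_self]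
      obtain ⟨u, hu⟩ := hker0 _ h1
      exact ⟨u, c, by linear_combination -hu⟩
  obtain ⟨h1, h2⟩ := count S_mul (sL n φ) hs hR (Ideal.span {f, h}) h hI d d0 ho1 ho2 hfin hd
  obtain ⟨q, hq⟩ := lower S_mul n f a hf (sL n φ) hs hs1 hx hker0 hR
  have h3 : ∀ N : ℕ, Module.finrank k ↥(LinearMap.range (sL n φ) ⊓ G ((N * d0 : ℕ) : ℤ)) ≤ 1 + N * d := by
    intro N
    induction N with
    | zero =>
      have h6 := rank_zero _ hR
      rw [Nat.zero_mul, Nat.zero_mul]
      exact h6
    | succ N ih =>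
      have := h2 (N * d0)
      have e : (N + 1) * d0 = N * d0 + d0 := by ring
      rw [e]
      have e2 : (N + 1) * d = N * d + d := by ring
      omega
  have h4 : d0 ≤ d := by
    by_contra hlt
    push Not at hlt
    -- `N = n (q + 2)`, `M = (q+2) d0 - q`
    have h5 : q ≤ (q + 2) * d0 := by nlinarith
    have h6 := hq ((q + 2) * d0 - q)
    have h7 := h3 (n * (q + 2))
    have e : n * ((q + 2) * d0 - q + q) = n * (q + 2) * d0 := by
      rw [Nat.sub_add_cancel h5]; ring
    rw [e] at h6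
    have h8 : n * ((q + 2) * d0 - q) ≤ 1 + n * (q + 2) * d := h6.trans h7
    have h9 : n * ((q + 2) * d0 - q) + n * q = n * ((q + 2) * d0) := by
      rw [← mul_add, Nat.sub_add_cancel h5]
    have h10 : n * ((q + 2) * (d + 1)) ≤ n * ((q + 2) * d0) :=
      Nat.mul_le_mul_left _ (Nat.mul_le_mul_left _ hlt)
    nlinarith
  have h5 : d0 = d := le_antisymm h4 h1
  rw [← h5]
  exact ⟨ho1, ho2⟩

end Pool.Agent.H464R2.OPCDIM
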